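import Mathlib

/-!
Definitions for the Koszul module of a graph `Γ` on the vertex set `Fin n`
(problem MP_15f3fd_al): its presentation matrix, the ideal of maximal minors of that matrix,
the spanning tree ideal and the irrelevant ideal.
-/

open MvPolynomial

namespace Pool.Agent.Work.MP_15f3fd_al

variable {n : ℕ} (k : Type*) [Field k]

/-- The non-edges of `Γ`, i.e. the pairs `i < j` of vertices that are not adjacent. -/
abbrev NonEdge (Γ : SimpleGraph (Fin n)) : Type :=
  {p : Fin n × Fin n // p.1 < p.2 ∧ ¬ Γ.Adj p.1 p.2}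

/-- The increasing triples `a < b < c` of vertices. -/
abbrev Triple (n : ℕ) : Type :=
  {t : Fin n × Fin n × Fin n // t.1 < t.2.1 ∧ t.2.1 < t.2.2}

/-- The presentation matrix of the Koszul module of `Γ`: rows are the non-edges, columns are the
triples `a < b < c`, and the column of `a < b < c` is (the class modulo the edges of)
`e_a ∧ e_b ⊗ x_c - e_a ∧ e_c ⊗ x_b + e_b ∧ e_c ⊗ x_a`. -/
noncomputable def koszulMatrix (Γ : SimpleGraph (Fin n)) :
    Matrix (NonEdge Γ) (Triple n) (MvPolynomial (Fin n) k) := fun p t =>
  if p.1 = (t.1.1, t.1.2.1) then X t.1.2.2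
  else if p.1 = (t.1.1, t.1.2.2) then - X t.1.2.1
  else if p.1 = (t.1.2.1, t.1.2.2) then X t.1.1
  else 0

/-- The zeroth Fitting ideal of the Koszul module of `Γ`: the ideal generated by the maximal minors
of the presentation matrix (one row for each non-edge, and as many distinct columns). -/
noncomputable def fittIdeal (Γ : SimpleGraph (Fin n)) [DecidableRel Γ.Adj] :
    Ideal (MvPolynomial (Fin n) k) :=
  Ideal.span (Set.range fun f : NonEdge Γ ↪ Triple n => ((koszulMatrix k Γ).submatrix id f).det)

/-- The monomial `∏ x_i ^ (deg_T i - 1)` of a graph `T`. -/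
noncomputable def treeMonomial (T : SimpleGraph (Fin n)) : MvPolynomial (Fin n) k :=
  ∏ i, X i ^ ((T.neighborSet i).ncard - 1)

/-- The ideal generated by the monomials of all spanning trees of `Γ`. -/
noncomputable def treeIdeal (Γ : SimpleGraph (Fin n)) : Ideal (MvPolynomial (Fin n) k) :=
  Ideal.span {m | ∃ T : SimpleGraph (Fin n), T ≤ Γ ∧ T.IsTree ∧ m = treeMonomial k T}

/-- The irrelevant maximal ideal `(x_1, ..., x_n)`. -/
noncomputable def maxIdeal (n : ℕ) : Ideal (MvPolynomial (Fin n) k) := Ideal.span (Set.range X)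

end Pool.Agent.Work.MP_15f3fd_al
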