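import Mathlib
import Pool.Agent.Work.MP_15f3fd_al.Defs

/-! Proof of the formula for the Fitting ideal of the Koszul module of a graph. -/

open Matrix Finset

namespace Pool.Agent.Work.MP_15f3fd_al

theorem cb {m n R : Type*} [Fintype m] [Fintype n] [DecidableEq m] [DecidableEq n] [CommRing R]
    (A : Matrix m n R) (B : Matrix n m R) :
    (A * B).det = ∑ f : m → n, (A.submatrix id f).det * ∏ i, B (f i) i := by
  classical
  rw [det_apply']
  simp_rw [det_apply', Matrix.mul_apply, Finset.prod_univ_sum, Fintype.piFinset_univ,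
    Finset.prod_mul_distrib, Finset.sum_mul, Finset.mul_sum]
  rw [Finset.sum_comm]
  refine Finset.sum_congr rfl fun f _ => Finset.sum_congr rfl fun σ _ => ?_
  simp [mul_assoc]

theorem cb' {m n R : Type*} [Fintype m] [Fintype n] [DecidableEq m] [DecidableEq n] [CommRing R]
    (A : Matrix m n R) (B : Matrix n m R) :
    ((Fintype.card m).factorial : R) * (A * B).det =
      ∑ f : m → n, (A.submatrix id f).det * (B.submatrix f id).det := by
  classical
  have key : ∀ σ : Equiv.Perm m, (A * B).det =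
      ∑ f : m → n, (A.submatrix id f).det * ((Equiv.Perm.sign σ : ℤ) * ∏ i, B (f (σ i)) i) := by
    intro σ
    rw [cb]
    rw [← Equiv.sum_comp (Equiv.arrowCongr σ.symm (Equiv.refl n))]
    refine Finset.sum_congr rfl fun f _ => ?_
    have h1 : A.submatrix id ((Equiv.arrowCongr σ.symm (Equiv.refl n)) f)
        = (A.submatrix id f).submatrix id σ := by
      ext i j; simp [Equiv.arrowCongr]
    rw [h1, det_permute']
    have h2 : ∀ i, ((Equiv.arrowCongr σ.symm (Equiv.refl n)) f) i = f (σ i) := by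
      intro i; simp [Equiv.arrowCongr]
    simp_rw [h2]
    ring
  have : ∑ f : m → n, (A.submatrix id f).det * (B.submatrix f id).det =
      ∑ σ : Equiv.Perm m, (A * B).det := by
    rw [Finset.sum_congr rfl (fun σ _ => key σ), Finset.sum_comm]
    refine Finset.sum_congr rfl fun f _ => ?_
    rw [det_apply' (B.submatrix f id), Finset.mul_sum]
    rfl
  rw [this]
  simp [Fintype.card_perm]

/-- Cauchy-Binet for `A D Aᵀ`. -/
theorem cb_sq {m n R : Type*} [Fintype m] [Fintype n] [DecidableEq m] [DecidableEq n] [CommRing R]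
    (A : Matrix m n R) (w : n → R) :
    ((Fintype.card m).factorial : R) * (A * (diagonal w * Aᵀ)).det =
      ∑ f : m → n, (A.submatrix id f).det ^ 2 * ∏ i, w (f i) := by
  rw [cb']
  refine Finset.sum_congr rfl fun f _ => ?_
  have : (diagonal w * Aᵀ).submatrix f id = diagonal (w ∘ f) * (A.submatrix id f)ᵀ := by
    ext i j
    simp [Matrix.diagonal_mul]
  rw [this, det_mul, det_diagonal, det_transpose]
  simp only [Function.comp]
  ring

variable {n : ℕ}

/-- alternating indicator -/
def s2 {R : Type*} [CommRing R] (p : Fin n × Fin n) (a b : Fin n) : R :=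
  (if p = (a, b) then 1 else 0) - (if p = (b, a) then 1 else 0)

/-- signed incidence of pair `p` in the ordered triple `t` -/
def bt {R : Type*} [CommRing R] (p : Fin n × Fin n) (t : Fin n × Fin n × Fin n) : R :=
  s2 p t.1 t.2.1 - s2 p t.1 t.2.2 + s2 p t.2.1 t.2.2

/-- vertex-edge incidence -/
def inc {R : Type*} [CommRing R] (v : Fin n) (p : Fin n × Fin n) : R :=
  (if v = p.2 then 1 else 0) - (if v = p.1 then 1 else 0)

/-- weighted incidence -/
def gnc {R : Type*} [CommRing R] (y : Fin n → R) (v : Fin n) (p : Fin n × Fin n) : R :=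
  (if v = p.2 then y p.1 else 0) - (if v = p.1 then y p.2 else 0)

section
variable {R : Type*} [CommRing R] (y : Fin n → R)

theorem s2_swap (p : Fin n × Fin n) (a b : Fin n) : (s2 p a b : R) = - s2 p b a := by
  unfold s2; ring

theorem sum_s2_right (p : Fin n × Fin n) (a : Fin n) :
    ∑ b, (s2 p a b : R) * y b = - gnc y a p := by
  obtain ⟨p1, p2⟩ := p
  unfold s2 gnc
  simp only [Prod.mk.injEq, sub_mul, ite_mul, one_mul, zero_mul, Finset.sum_sub_distrib]
  rcases eq_or_ne p1 a with h | h <;> rcases eq_or_ne p2 a with h' | h'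
  · subst h; subst h'; simp
  · subst h; simp [h', h'.symm]
  · subst h'; simp [h, h.symm]
  · simp [h, h', h.symm, h'.symm]

theorem sum_s2_left (p : Fin n × Fin n) (b : Fin n) :
    ∑ a, (s2 p a b : R) * y a = gnc y b p := by
  have := sum_s2_right y p b
  rw [← neg_eq_iff_eq_neg] at this
  rw [← this, ← Finset.sum_neg_distrib]
  refine Finset.sum_congr rfl fun a _ => ?_
  rw [s2_swap p a b]; ring

theorem sum_s2_s2 {p q : Fin n × Fin n} (hp : p.1 < p.2) (hq : q.1 < q.2) :
    ∑ a, ∑ b, (s2 p a b : R) * s2 q a b * (y a * y b) =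
      2 * (if p = q then y p.1 * y p.2 else 0) := by
  obtain ⟨p1, p2⟩ := p
  obtain ⟨q1, q2⟩ := q
  simp only at hp hq
  have h1 : ∀ a b : Fin n, (s2 (p1, p2) a b : R) * s2 (q1, q2) a b * (y a * y b) =
      (if p1 = a then (if p2 = b then (if (p1,p2) = (q1,q2) then y p1 * y p2 else 0) else 0) else 0)
      + (if p2 = a then (if p1 = b then (if (p1,p2) = (q1,q2) then y p1 * y p2 else 0) else 0) else 0) := by
    intro a b
    unfold s2
    simp only [Prod.mk.injEq]
    split_ifs <;> first | (exfalso; omega) | (simp_all <;> ring)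
  simp_rw [h1, Finset.sum_add_distrib]
  simp
  split_ifs <;> ring

theorem tri1 (f g : Fin n → Fin n → R) :
    ∑ a, ∑ b, ∑ c, f a b * g a c * (y a * y b * y c) =
      ∑ a, y a * (∑ b, f a b * y b) * (∑ c, g a c * y c) := by
  refine Finset.sum_congr rfl fun a _ => ?_
  rw [mul_assoc, Finset.sum_mul_sum, Finset.mul_sum]
  refine Finset.sum_congr rfl fun b _ => ?_
  rw [Finset.mul_sum]
  refine Finset.sum_congr rfl fun c _ => ?_
  ring

theorem tri2 (f g : Fin n → Fin n → R) :
    ∑ a, ∑ b, ∑ c, f a b * g b c * (y a * y b * y c) =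
      ∑ b, y b * (∑ a, f a b * y a) * (∑ c, g b c * y c) := by
  rw [Finset.sum_comm]
  refine Finset.sum_congr rfl fun b _ => ?_
  rw [mul_assoc, Finset.sum_mul_sum, Finset.mul_sum]
  refine Finset.sum_congr rfl fun a _ => ?_
  rw [Finset.mul_sum]
  refine Finset.sum_congr rfl fun c _ => ?_
  ring

theorem tri3 (f g : Fin n → Fin n → R) :
    ∑ a, ∑ b, ∑ c, f a c * g b c * (y a * y b * y c) =
      ∑ c, y c * (∑ a, f a c * y a) * (∑ b, g b c * y b) := by
  have : ∑ a, ∑ b, ∑ c, f a c * g b c * (y a * y b * y c) =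
      ∑ c, ∑ a, ∑ b, f a c * g b c * (y a * y b * y c) := by
    rw [Finset.sum_comm' (s := univ) (t := fun _ => univ) (t' := univ) (s' := fun _ => univ) (by simp)]
    rw [Finset.sum_congr rfl (fun b _ => Finset.sum_comm)]
    rw [Finset.sum_comm]
    refine Finset.sum_congr rfl fun c _ => ?_
    rw [Finset.sum_comm]
  rw [this]
  refine Finset.sum_congr rfl fun c _ => ?_
  rw [mul_assoc, Finset.sum_mul_sum, Finset.mul_sum]
  refine Finset.sum_congr rfl fun a _ => ?_
  rw [Finset.mul_sum]
  refine Finset.sum_congr rfl fun b _ => ?_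
  ring

theorem tri0 (f g : Fin n → Fin n → R) :
    ∑ a, ∑ b, ∑ c, f a b * g a b * (y a * y b * y c) =
      (∑ a, ∑ b, f a b * g a b * (y a * y b)) * ∑ c, y c := by
  rw [Finset.sum_mul]
  refine Finset.sum_congr rfl fun a _ => ?_
  rw [Finset.sum_mul]
  refine Finset.sum_congr rfl fun b _ => ?_
  rw [Finset.mul_sum]
  refine Finset.sum_congr rfl fun c _ => ?_
  ring

theorem tri0' (f g : Fin n → Fin n → R) :
    ∑ a, ∑ b, ∑ c, f a c * g a c * (y a * y b * y c) =
      (∑ a, ∑ b, f a b * g a b * (y a * y b)) * ∑ c, y c := by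
  rw [← tri0]
  refine Finset.sum_congr rfl fun a _ => ?_
  rw [Finset.sum_comm]
  refine Finset.sum_congr rfl fun b _ => Finset.sum_congr rfl fun c _ => ?_
  ring

theorem tri0'' (f g : Fin n → Fin n → R) :
    ∑ a, ∑ b, ∑ c, f b c * g b c * (y a * y b * y c) =
      (∑ a, ∑ b, f a b * g a b * (y a * y b)) * ∑ c, y c := by
  rw [mul_comm, Finset.sum_mul]
  refine Finset.sum_congr rfl fun a _ => ?_
  rw [Finset.mul_sum]
  refine Finset.sum_congr rfl fun b _ => ?_
  rw [Finset.mul_sum]
  refine Finset.sum_congr rfl fun c _ => ?_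
  ring

theorem sum_bt {p q : Fin n × Fin n} (hp : p.1 < p.2) (hq : q.1 < q.2) :
    ∑ a, ∑ b, ∑ c, (bt p (a, b, c) : R) * bt q (a, b, c) * (y a * y b * y c) =
      6 * ((if p = q then y p.1 * y p.2 else 0) * (∑ c, y c)
        - ∑ v, y v * gnc y v p * gnc y v q) := by
  have e : ∀ a b c : Fin n, (bt p (a, b, c) : R) * bt q (a, b, c) * (y a * y b * y c) =
      s2 p a b * s2 q a b * (y a * y b * y c) + s2 p a c * s2 q a c * (y a * y b * y c)
      + s2 p b c * s2 q b c * (y a * y b * y c)
      - s2 p a b * s2 q a c * (y a * y b * y c) - s2 q a b * s2 p a c * (y a * y b * y c)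
      + s2 p a b * s2 q b c * (y a * y b * y c) + s2 q a b * s2 p b c * (y a * y b * y c)
      - s2 p a c * s2 q b c * (y a * y b * y c) - s2 q a c * s2 p b c * (y a * y b * y c) := by
    intro a b c; unfold bt; ring
  simp only [e, Finset.sum_add_distrib, Finset.sum_sub_distrib]
  simp only [tri0, tri0', tri0'', tri1, tri2, tri3, sum_s2_s2 y hp hq, sum_s2_right, sum_s2_left]
  have h1 : ∑ a, y a * -gnc y a p * -gnc y a q = ∑ v, y v * gnc y v p * gnc y v q :=
    Finset.sum_congr rfl fun a _ => by ring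
  have h2 : ∑ a, y a * -gnc y a q * -gnc y a p = ∑ v, y v * gnc y v p * gnc y v q :=
    Finset.sum_congr rfl fun a _ => by ring
  have h3 : ∑ a, y a * gnc y a p * -gnc y a q = - ∑ v, y v * gnc y v p * gnc y v q := by
    rw [← Finset.sum_neg_distrib]
    exact Finset.sum_congr rfl fun a _ => by ring
  have h4 : ∑ a, y a * gnc y a q * -gnc y a p = - ∑ v, y v * gnc y v p * gnc y v q := by
    rw [← Finset.sum_neg_distrib]
    exact Finset.sum_congr rfl fun a _ => by ring
  have h5 : ∑ a, y a * gnc y a q * gnc y a p = ∑ v, y v * gnc y v p * gnc y v q :=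
    Finset.sum_congr rfl fun a _ => by ring
  rw [h1, h2, h3, h4, h5]
  ring

/-- full sum over ordered pairs of the weighted incidence products -/
theorem sum_gnc_inc (v w : Fin n) :
    ∑ i, ∑ j, gnc y v (i, j) * (inc w (i, j) : R) =
      2 * ((if v = w then ∑ c, y c else 0) - y w) := by
  have e : ∀ i j : Fin n, gnc y v (i, j) * (inc w (i, j) : R) =
      (if v = j then (if w = j then y i else 0) else 0)
      - (if v = j then (if w = i then y i else 0) else 0)
      - (if v = i then (if w = j then y j else 0) else 0)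
      + (if v = i then (if w = i then y j else 0) else 0) := by
    intro i j
    unfold gnc inc
    split_ifs <;> (simp; try ring)
  simp only [e, Finset.sum_add_distrib, Finset.sum_sub_distrib]
  simp only [Finset.sum_ite_eq, Finset.mem_univ, if_true]
  rcases eq_or_ne v w with h | h
  · subst h
    simp [Finset.sum_ite_eq]
    ring
  · simp [h, h.symm]
    ring

theorem gnc_inc_swap (v w i j : Fin n) :
    gnc y v (i, j) * (inc w (i, j) : R) = gnc y v (j, i) * inc w (j, i) := by
  unfold gnc inc; ring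

theorem gnc_inc_diag (v w i : Fin n) :
    gnc y v (i, i) * (inc w (i, i) : R) = 0 := by
  unfold gnc inc; ring

/-- symmetric sums over ordered pairs -/
theorem sum_pairs (F : Fin n → Fin n → R) (hF : ∀ i j, F i j = F j i) (h0 : ∀ i, F i i = 0) :
    ∑ i, ∑ j, F i j = 2 * ∑ p : {p : Fin n × Fin n // p.1 < p.2}, F p.1.1 p.1.2 := by
  rw [← Finset.sum_product' univ univ (fun i j => F i j), Finset.univ_product_univ]
  have h1 : ∑ x : Fin n × Fin n, F x.1 x.2 =
      ∑ x : Fin n × Fin n, ((if x.1 < x.2 then F x.1 x.2 else 0) + (if x.2 < x.1 then F x.1 x.2 else 0)) := by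
    refine Finset.sum_congr rfl fun x _ => ?_
    rcases lt_trichotomy x.1 x.2 with h | h | h
    · simp [h, h.not_gt]
    · simp [h, h0]
    · simp [h, h.not_gt]
  rw [h1, Finset.sum_add_distrib]
  have h2 : ∑ x : Fin n × Fin n, (if x.2 < x.1 then F x.1 x.2 else 0) =
      ∑ x : Fin n × Fin n, (if x.1 < x.2 then F x.1 x.2 else 0) := by
    rw [← Equiv.sum_comp (Equiv.prodComm (Fin n) (Fin n))]
    refine Finset.sum_congr rfl fun x _ => ?_
    show (if x.1 < x.2 then F x.2 x.1 else 0) = _
    rw [hF]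
  rw [h2, ← Finset.sum_filter, ← Finset.sum_subtype_eq_sum_filter, two_mul]
  simp
end

/-- edges `i < j` -/
abbrev Edge (Γ : SimpleGraph (Fin n)) : Type :=
  {p : Fin n × Fin n // p.1 < p.2 ∧ Γ.Adj p.1 p.2}

section
variable {R : Type*} [CommRing R] (y : Fin n → R) (Γ : SimpleGraph (Fin n)) [DecidableRel Γ.Adj]

/-- boundary matrix, ordered triples -/
def Beta (R : Type*) [CommRing R] (Γ : SimpleGraph (Fin n)) :
    Matrix (NonEdge Γ) (Fin n × Fin n × Fin n) R := fun p t => bt p.1 t

def ww (t : Fin n × Fin n × Fin n) : R := y t.1 * y t.2.1 * y t.2.2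

def Amat (R : Type*) [CommRing R] (Γ : SimpleGraph (Fin n)) : Matrix (Fin n) (NonEdge Γ) R :=
  fun v p => inc v p.1

def Gmat : Matrix (Fin n) (NonEdge Γ) R := fun v p => gnc y v p.1

def AmatE (R : Type*) [CommRing R] (Γ : SimpleGraph (Fin n)) : Matrix (Fin n) (Edge Γ) R :=
  fun v p => inc v p.1

def GmatE : Matrix (Fin n) (Edge Γ) R := fun v p => gnc y v p.1

def Nmat (Γ : SimpleGraph (Fin n)) : Matrix (Fin n) (Edge Γ ⊕ Unit) R :=
  fun v e => Sum.elim (fun p => inc v p.1) (fun _ => y v) e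

def wE (Γ : SimpleGraph (Fin n)) : Edge Γ ⊕ Unit → R :=
  Sum.elim (fun p => y p.1.1 * y p.1.2) (fun _ => 1)

theorem y_mul_gnc (v : Fin n) (p : Fin n × Fin n) :
    y v * gnc y v p = inc v p * (y p.1 * y p.2) := by
  unfold gnc inc
  split_ifs with h1 h2 h2
  · rw [← h1, ← h2]; ring
  · rw [h1]; ring
  · rw [h2]; ring
  · ring

theorem lemA : Beta R Γ * (diagonal (ww y) * (Beta R Γ)ᵀ) =
    diagonal (fun p : NonEdge Γ => 6 * (y p.1.1 * y p.1.2)) *
      ((∑ c, y c) • (1 : Matrix (NonEdge Γ) (NonEdge Γ) R) - (Amat R Γ)ᵀ * Gmat y Γ) := by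
  ext p q
  rw [Matrix.diagonal_mul, Matrix.mul_apply, Matrix.sub_apply, Matrix.smul_apply, Matrix.mul_apply,
    Matrix.one_apply]
  have h1 : ∑ j, Beta R Γ p j * (diagonal (ww y) * (Beta R Γ)ᵀ) j q =
      ∑ a, ∑ b, ∑ c, (bt p.1 (a, b, c) : R) * bt q.1 (a, b, c) * (y a * y b * y c) := by
    rw [← Finset.univ_product_univ, Finset.sum_product]
    refine Finset.sum_congr rfl fun a _ => ?_
    rw [← Finset.univ_product_univ, Finset.sum_product]
    refine Finset.sum_congr rfl fun b _ => Finset.sum_congr rfl fun c _ => ?_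
    simp only [Matrix.diagonal_mul, Beta, ww, Matrix.transpose_apply]
    ring
  rw [h1, sum_bt y p.2.1 q.2.1]
  have h2 : ∀ v, y v * gnc y v p.1 * gnc y v q.1 =
      (y p.1.1 * y p.1.2) * ((Amat R Γ)ᵀ p v * Gmat y Γ v q) := by
    intro v
    rw [y_mul_gnc]
    simp only [Amat, Gmat, Matrix.transpose_apply]
    ring
  simp_rw [h2, ← Finset.mul_sum]
  by_cases hpq : p = q
  · subst hpq; simp; ring
  · have : p.1 ≠ q.1 := fun h => hpq (Subtype.ext h)
    simp [hpq, this]; ring

theorem lemB : (∑ c, y c) ^ n *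
      ((∑ c, y c) • (1 : Matrix (NonEdge Γ) (NonEdge Γ) R) - (Amat R Γ)ᵀ * Gmat y Γ).det =
    (∑ c, y c) ^ Fintype.card (NonEdge Γ) *
      ((∑ c, y c) • (1 : Matrix (Fin n) (Fin n) R) - Gmat y Γ * (Amat R Γ)ᵀ).det := by
  have h := charpoly_mul_comm' (Amat R Γ)ᵀ (Gmat y Γ)
  have h2 := congrArg (Polynomial.eval (∑ c, y c)) h
  simp only [Polynomial.eval_mul, Polynomial.eval_pow, Polynomial.eval_X, Matrix.eval_charpoly,
    Fintype.card_fin] at h2
  convert h2 using 4
  · rw [Matrix.scalar_apply, Matrix.smul_one_eq_diagonal]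
  · rw [Matrix.scalar_apply, Matrix.smul_one_eq_diagonal]

theorem lemC [IsDomain R] [CharZero R] :
    (∑ c, y c) • (1 : Matrix (Fin n) (Fin n) R) - Gmat y Γ * (Amat R Γ)ᵀ =
      (Matrix.of fun _ w => y w) + GmatE y Γ * (AmatE R Γ)ᵀ := by
  ext v w
  have h2 : (2 : R) ≠ 0 := two_ne_zero
  apply mul_left_cancel₀ h2
  rw [Matrix.sub_apply, Matrix.smul_apply, Matrix.mul_apply, Matrix.add_apply, Matrix.mul_apply,
    Matrix.one_apply]
  simp only [Gmat, GmatE, Amat, AmatE, Matrix.transpose_apply, Matrix.of_apply]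
  have hall := sum_gnc_inc y v w
  rw [sum_pairs _ (fun i j => gnc_inc_swap y v w i j) (fun i => gnc_inc_diag y v w i)] at hall
  have hsplit : ∑ p : {p : Fin n × Fin n // p.1 < p.2}, gnc y v (p.1.1, p.1.2) * (inc w (p.1.1, p.1.2) : R)
      = ∑ p : NonEdge Γ, gnc y v p.1 * inc w p.1 + ∑ p : Edge Γ, gnc y v p.1 * inc w p.1 := by
    have e1 : ∀ (P : Fin n × Fin n → Prop) [DecidablePred P] (f : Fin n × Fin n → R),
        ∑ p : {p // P p}, f p.1 = ∑ p, if P p then f p else 0 := by
      intro P _ f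
      rw [← Finset.sum_filter, ← Finset.sum_subtype_eq_sum_filter]; simp
    rw [e1 (fun p => p.1 < p.2) (fun p => gnc y v (p.1, p.2) * (inc w (p.1, p.2) : R)),
      e1 (fun p => p.1 < p.2 ∧ ¬ Γ.Adj p.1 p.2) (fun p => gnc y v p * (inc w p : R)),
      e1 (fun p => p.1 < p.2 ∧ Γ.Adj p.1 p.2) (fun p => gnc y v p * (inc w p : R)),
      ← Finset.sum_add_distrib]
    refine Finset.sum_congr rfl fun p _ => ?_
    by_cases h1 : p.1 < p.2 <;> by_cases h2 : Γ.Adj p.1 p.2 <;> simp [h1, h2]
  rw [hsplit] at hall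
  split_ifs at hall ⊢ with hvw
  · simp only [smul_eq_mul, mul_one]
    linear_combination (-1 : R) * hall
  · simp only [smul_eq_mul, mul_zero]
    linear_combination (-1 : R) * hall

theorem lemD : (∏ v, y v) * ((Matrix.of fun _ w => y w) + GmatE y Γ * (AmatE R Γ)ᵀ).det =
    (Nmat y Γ * (diagonal (wE y Γ) * (Nmat y Γ)ᵀ)).det := by
  rw [← det_diagonal, ← det_mul]
  congr 1
  ext v w
  rw [Matrix.diagonal_mul, Matrix.add_apply, Matrix.mul_apply, Matrix.mul_apply, Fintype.sum_sum_type]
  simp only [Matrix.of_apply, Nmat, wE, GmatE, AmatE, Matrix.diagonal_mul, Matrix.transpose_apply,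
    Sum.elim_inl, Sum.elim_inr, Finset.univ_unique, Finset.sum_singleton, one_mul, mul_add,
    Finset.mul_sum]
  rw [add_comm]
  congr 1
  refine Finset.sum_congr rfl fun e _ => ?_
  rw [← mul_assoc, y_mul_gnc]
  ring

end

section
variable {N : ℕ} {R : Type*} [CommRing R]

theorem sum_inc (p : Fin n × Fin n) : ∑ v, (inc v p : R) = 0 := by
  unfold inc; simp

/-- indicator of the extra column -/
def sE {R : Type*} [CommRing R] {Γ : SimpleGraph (Fin n)} (e : Edge Γ ⊕ Unit) : R :=
  Sum.elim (fun _ => 0) (fun _ => 1) e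

theorem sum_Nmat (y : Fin n → R) (Γ : SimpleGraph (Fin n)) (e : Edge Γ ⊕ Unit) :
    ∑ v, Nmat y Γ v e = (∑ c, y c) * sE e := by
  rcases e with e | e
  · simp [Nmat, sE, sum_inc]
  · simp [Nmat, sE]

theorem det_Nmat_aux (y : Fin (N+1) → R) (Γ : SimpleGraph (Fin (N+1)))
    (g : Fin (N+1) → Edge Γ ⊕ Unit) :
    ((Nmat y Γ).submatrix id g).det =
      (∑ c, y c) * (((Nmat y Γ).submatrix id g).updateRow 0 (fun j => sE (g j))).det := by
  have h := det_updateRow_sum ((Nmat y Γ).submatrix id g) 0 (fun _ => (1 : R))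
  rw [one_smul] at h
  rw [← h, ← det_updateRow_smul]
  congr 2
  ext j
  simp only [one_smul, Pi.smul_apply, smul_eq_mul]
  rw [← sum_Nmat y Γ (g j)]
  exact Finset.sum_apply _ _ _

theorem det_Nmat_aux2 (y y' : Fin (N+1) → R) (Γ : SimpleGraph (Fin (N+1)))
    (g : Fin (N+1) → Edge Γ ⊕ Unit) :
    (((Nmat y Γ).submatrix id g).updateRow 0 (fun j => sE (g j))).det =
      (((Nmat y' Γ).submatrix id g).updateRow 0 (fun j => sE (g j))).det := by
  by_cases h : ∃ i j, i ≠ j ∧ g i = Sum.inr () ∧ g j = Sum.inr ()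
  · obtain ⟨i, j, hij, hi, hj⟩ := h
    rw [det_zero_of_column_eq hij, det_zero_of_column_eq hij]
    · intro k
      by_cases hk : k = 0
      · subst hk; simp [hi, hj]
      · simp [Matrix.updateRow_apply, hk, hi, hj]
    · intro k
      by_cases hk : k = 0
      · subst hk; simp [hi, hj]
      · simp [Matrix.updateRow_apply, hk, hi, hj]
  · rw [det_succ_row_zero, det_succ_row_zero]
    refine Finset.sum_congr rfl fun j _ => ?_
    simp only [updateRow_self]
    rcases hgj : g j with e | e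
    · simp [sE]
    · congr 2
      ext k l
      have hne : g (j.succAbove l) ≠ Sum.inr () := by
        intro hcon
        apply h
        exact ⟨j, j.succAbove l, (Fin.succAbove_ne j l).symm, hgj, hcon⟩
      rcases hgl : g (j.succAbove l) with e' | e'
      · simp [Matrix.updateRow_apply, Nmat, hgl]
      · exact absurd hgl hne

/-- the tree coefficient -/
def cg (Γ : SimpleGraph (Fin (N+1))) (g : Fin (N+1) → Edge Γ ⊕ Unit) : ℤ :=
  ((Nmat (Pi.single 0 1 : Fin (N+1) → ℤ) Γ).submatrix id g).det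

theorem det_Nmat (y : Fin (N+1) → R) (Γ : SimpleGraph (Fin (N+1)))
    (g : Fin (N+1) → Edge Γ ⊕ Unit) :
    ((Nmat y Γ).submatrix id g).det = (cg Γ g : R) * ∑ c, y c := by
  have h1 : (cg Γ g : R) = ((Nmat (Pi.single 0 1 : Fin (N+1) → R) Γ).submatrix id g).det := by
    unfold cg
    rw [← eq_intCast (Int.castRingHom R), RingHom.map_det]
    congr 1
    ext i j
    simp only [RingHom.mapMatrix_apply, Matrix.map_apply, Matrix.submatrix_apply, id_eq]
    rcases g j with e | e
    · simp [Nmat, inc]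
    · simp [Nmat, Pi.single_apply]
      
  rw [h1, det_Nmat_aux y, det_Nmat_aux (Pi.single 0 1), det_Nmat_aux2 y (Pi.single 0 1)]
  simp
  ring

/-- the integer determinant of a choice of ordered triples -/
def db (Γ : SimpleGraph (Fin n)) [DecidableRel Γ.Adj] (f : NonEdge Γ → Fin n × Fin n × Fin n) : ℤ :=
  ((Beta ℤ Γ).submatrix id f).det

theorem det_Beta (Γ : SimpleGraph (Fin n)) [DecidableRel Γ.Adj]
    (f : NonEdge Γ → Fin n × Fin n × Fin n) :
    ((Beta R Γ).submatrix id f).det = (db Γ f : R) := by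
  unfold db
  rw [← eq_intCast (Int.castRingHom R), RingHom.map_det]
  congr 1
  ext i j
  show (bt i.1 (f j) : R) = Int.castRingHom R (bt i.1 (f j))
  unfold bt s2
  simp

theorem main_identity [IsDomain R] [CharZero R] (y : Fin (N+1) → R) (hY : ∑ c, y c ≠ 0)
    (Γ : SimpleGraph (Fin (N+1))) [DecidableRel Γ.Adj]
    (hE : N + 1 ≤ Fintype.card (NonEdge Γ) + 2) :
    ((N+1).factorial : R) * (∏ v, y v) *
        ∑ f : NonEdge Γ → Fin (N+1) × Fin (N+1) × Fin (N+1), (db Γ f : R) ^ 2 * ∏ p, ww y (f p) =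
      ((Fintype.card (NonEdge Γ)).factorial : R) * 6 ^ (Fintype.card (NonEdge Γ)) *
        (∏ p : NonEdge Γ, y p.1.1 * y p.1.2) *
        (∑ c, y c) ^ (Fintype.card (NonEdge Γ) + 2 - (N+1)) *
        ∑ g : Fin (N+1) → Edge Γ ⊕ Unit, (cg Γ g : R) ^ 2 * ∏ v, wE y Γ (g v) := by
  set m := Fintype.card (NonEdge Γ) with hm
  have e1 := cb_sq (Beta R Γ) (ww y)
  rw [lemA, det_mul, det_diagonal] at e1
  simp_rw [det_Beta] at e1
  rw [Finset.prod_mul_distrib, Finset.prod_const, Finset.card_univ, ← hm] at e1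
  have e2 := lemB y Γ
  rw [lemC, ← hm] at e2
  have e3 := cb_sq (Nmat y Γ) (wE y Γ)
  rw [← lemD] at e3
  simp_rw [det_Nmat] at e3
  rw [Fintype.card_fin] at e3
  set S1 := ∑ f : NonEdge Γ → Fin (N+1) × Fin (N+1) × Fin (N+1), (db Γ f : R) ^ 2 * ∏ p, ww y (f p)
  set S2 := ∑ g : Fin (N+1) → Edge Γ ⊕ Unit, (cg Γ g : R) ^ 2 * ∏ v, wE y Γ (g v) with hS2
  have e4 : ∑ g : Fin (N+1) → Edge Γ ⊕ Unit, ((cg Γ g : R) * ∑ c, y c) ^ 2 * ∏ v, wE y Γ (g v) =
      (∑ c, y c) ^ 2 * S2 := by
    rw [hS2, Finset.mul_sum]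
    refine Finset.sum_congr rfl fun g _ => ?_
    ring
  rw [e4] at e3
  set Y := ∑ c, y c
  set D1 := (Y • (1 : Matrix (NonEdge Γ) (NonEdge Γ) R) - (Amat R Γ)ᵀ * Gmat y Γ).det
  set D2 := ((Matrix.of fun _ w => y w) + GmatE y Γ * (AmatE R Γ)ᵀ).det
  have hYn : Y ^ (N+1) ≠ 0 := pow_ne_zero _ hY
  apply mul_left_cancel₀ hYn
  have hpow : Y ^ (N+1) * Y ^ (m + 2 - (N+1)) = Y ^ m * Y ^ 2 := by
    rw [← pow_add, ← pow_add]; congr 1; omega
  calc Y ^ (N+1) * (((N+1).factorial : R) * (∏ v, y v) * S1)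
      = ((N+1).factorial : R) * (∏ v, y v) * ((m.factorial : R) * (6 ^ m * (∏ p : NonEdge Γ, y p.1.1 * y p.1.2))) * (Y ^ (N+1) * D1) := by
        rw [← e1]; ring
    _ = ((m.factorial : R) * (6 ^ m * (∏ p : NonEdge Γ, y p.1.1 * y p.1.2))) * Y ^ m *
          (((N+1).factorial : R) * ((∏ v, y v) * D2)) := by
        rw [e2]; ring
    _ = ((m.factorial : R) * (6 ^ m * (∏ p : NonEdge Γ, y p.1.1 * y p.1.2))) *
          (Y ^ m * Y ^ 2) * S2 := by
        rw [e3]; ring
    _ = _ := by rw [← hpow]; ring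

end

section trees
variable {N : ℕ}

/-- exponent of a pair -/
noncomputable def ep (p : Fin n × Fin n) : Fin n →₀ ℕ := Finsupp.single p.1 1 + Finsupp.single p.2 1

/-- exponent of a column of the incidence matrix -/
noncomputable def ew (Γ : SimpleGraph (Fin n)) : Edge Γ ⊕ Unit → (Fin n →₀ ℕ) :=
  Sum.elim (fun p => ep p.1) (fun _ => 0)

/-- `T` is the graph whose edges are the values of `g`. -/
def IsGraphOf {Γ : SimpleGraph (Fin n)} (T : SimpleGraph (Fin n)) (g : Fin n → Edge Γ ⊕ Unit) : Prop :=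
  ∀ i w, T.Adj i w ↔ ∃ v, ∃ p : Edge Γ, g v = Sum.inl p ∧ (p.1 = (i, w) ∨ p.1 = (w, i))

theorem deg_count {Γ : SimpleGraph (Fin n)} {T : SimpleGraph (Fin n)} {g : Fin n → Edge Γ ⊕ Unit}
    (hg : Function.Injective g) (hT : IsGraphOf T g) (i : Fin n) :
    (∑ v, ew Γ (g v)) i = (T.neighborSet i).ncard := by
  classical
  have h1 : (T.neighborSet i).ncard = ∑ w, if T.Adj i w then 1 else 0 := by
    rw [Finset.sum_boole, Nat.cast_id, Set.ncard_eq_toFinset_card']
    congr 1
    ext w
    simp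
  have h2 : ∀ w, (if T.Adj i w then 1 else 0) =
      ∑ v, Sum.elim (fun p : Edge Γ => (if p.1 = (i, w) then 1 else 0) + (if p.1 = (w, i) then 1 else 0))
        (fun _ => 0) (g v) := by
    intro w
    by_cases h : T.Adj i w
    · obtain ⟨v1, p, hv1, hp⟩ := (hT i w).1 h
      rw [if_pos h, Finset.sum_eq_single v1]
      · rw [hv1]
        have hlt := p.2.1
        have hne : i ≠ w := h.ne
        rcases hp with hp | hp
        · have : ¬ ((i, w) = (w, i)) := by
            intro hc; exact hne (by simpa using congrArg Prod.fst hc)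
          simp [hp, this, hne]
        · have : ¬ ((w, i) = (i, w)) := by
            intro hc; exact hne (by simpa using congrArg Prod.snd hc)
          simp [hp, hne.symm, hne]
      · intro v _ hv
        rcases hgv : g v with q | q
        · have hqp : q ≠ p := by
            intro hqp; apply hv; apply hg; rw [hgv, hv1, hqp]
          have hq1 := q.2.1
          have hp1 := p.2.1
          have a1 : q.1 ≠ (i, w) := by
            intro hc
            rcases hp with hp | hp
            · exact hqp (Subtype.ext (hc.trans hp.symm))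
            · rw [hc] at hq1; rw [hp] at hp1; exact absurd hq1 (not_lt_of_gt hp1)
          have a2 : q.1 ≠ (w, i) := by
            intro hc
            rcases hp with hp | hp
            · rw [hc] at hq1; rw [hp] at hp1; exact absurd hq1 (not_lt_of_gt hp1)
            · exact hqp (Subtype.ext (hc.trans hp.symm))
          simp [a1, a2]
        · simp
      · simp
    · rw [if_neg h]
      symm
      apply Finset.sum_eq_zero
      intro v _
      rcases hgv : g v with q | q
      · have a1 : q.1 ≠ (i, w) := fun hc => h ((hT i w).2 ⟨v, q, hgv, Or.inl hc⟩)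
        have a2 : q.1 ≠ (w, i) := fun hc => h ((hT i w).2 ⟨v, q, hgv, Or.inr hc⟩)
        simp [a1, a2]
      · simp
  rw [h1, Finset.sum_congr rfl (fun w _ => h2 w), Finset.sum_comm, Finsupp.finsetSum_apply]
  refine Finset.sum_congr rfl fun v _ => ?_
  rcases g v with q | q
  · obtain ⟨⟨q1, q2⟩, hq⟩ := q
    simp only [ew, ep, Sum.elim_inl, Finsupp.add_apply, Finsupp.single_apply, Prod.mk.injEq,
      Finset.sum_add_distrib]
    congr 1
    · by_cases h : q1 = i <;> simp [h]
    · by_cases h : q2 = i <;> simp [h]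
  · simp [ew]

theorem vecMul_Nmat {Γ : SimpleGraph (Fin (N+1))} (g : Fin (N+1) → Edge Γ ⊕ Unit) (z : Fin (N+1) → ℤ)
    (j : Fin (N+1)) :
    (z ᵥ* ((Nmat (Pi.single 0 1 : Fin (N+1) → ℤ) Γ).submatrix id g)) j =
      Sum.elim (fun p : Edge Γ => z p.1.2 - z p.1.1) (fun _ => z 0) (g j) := by
  simp only [Matrix.vecMul, dotProduct, Matrix.submatrix_apply, id_eq]
  rcases g j with p | p
  · simp [Nmat, inc, mul_sub, Finset.sum_sub_distrib]
  · simp [Nmat, Pi.single_apply]

theorem cg_ne_zero_of {Γ : SimpleGraph (Fin (N+1))} {T : SimpleGraph (Fin (N+1))}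
    {g : Fin (N+1) → Edge Γ ⊕ Unit} (hT : IsGraphOf T g) (hc : T.Connected)
    (hu : ∃ v, g v = Sum.inr ()) : cg Γ g ≠ 0 := by
  intro h0
  obtain ⟨z, hz, hz0⟩ := exists_vecMul_eq_zero_iff.2 h0
  apply hz
  obtain ⟨v0, hv0⟩ := hu
  have h1 : z 0 = 0 := by
    have := congrFun hz0 v0
    rw [vecMul_Nmat, hv0] at this
    simpa using this
  have hadj : ∀ i w, T.Adj i w → z i = z w := by
    intro i w hiw
    obtain ⟨v, p, hv, hp⟩ := (hT i w).1 hiw
    have := congrFun hz0 v
    rw [vecMul_Nmat, hv] at this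
    simp only [Sum.elim_inl, Pi.zero_apply] at this
    rcases hp with hp | hp
    · rw [hp] at this; simp only at this; linarith
    · rw [hp] at this; simp only at this; linarith
  have hreach : ∀ i w, T.Reachable i w → z i = z w := by
    rintro i w ⟨p⟩
    induction p with
    | nil => rfl
    | cons h _ ih => exact (hadj _ _ h).trans ih
  funext w
  rw [← hreach 0 w (hc.preconnected 0 w), h1]
  rfl

theorem exists_tree_of_cg {Γ : SimpleGraph (Fin (N+1))} {g : Fin (N+1) → Edge Γ ⊕ Unit}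
    (h : cg Γ g ≠ 0) : ∃ T : SimpleGraph (Fin (N+1)), T ≤ Γ ∧ T.IsTree ∧
      ∀ i, (∑ v, ew Γ (g v)) i = (T.neighborSet i).ncard := by
  classical
  have hinj : Function.Injective g := by
    intro i j hij
    by_contra hne
    apply h
    unfold cg
    apply det_zero_of_column_eq hne
    intro k
    simp [hij]
  have hu : ∃ v, g v = Sum.inr () := by
    by_contra hcon
    push Not at hcon
    apply h
    unfold cg
    rw [det_Nmat_aux]
    have : (((Nmat (Pi.single 0 1 : Fin (N+1) → ℤ) Γ).submatrix id g).updateRow 0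
        (fun j => sE (g j))).det = 0 := by
      apply det_eq_zero_of_row_eq_zero 0
      intro j
      rw [updateRow_self]
      rcases hgj : g j with p | p
      · simp [sE]
      · exact absurd hgj (hcon j)
    rw [this, mul_zero]
  let T : SimpleGraph (Fin (N+1)) :=
    { Adj := fun i w => ∃ v, ∃ p : Edge Γ, g v = Sum.inl p ∧ (p.1 = (i, w) ∨ p.1 = (w, i))
      symm := ⟨by
        rintro i w ⟨v, p, hv, hp⟩
        exact ⟨v, p, hv, hp.symm⟩⟩
      loopless := ⟨by
        rintro i ⟨v, p, hv, hp⟩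
        have := p.2.1
        rcases hp with hp | hp <;> · rw [hp] at this; exact absurd this (lt_irrefl _)⟩ }
  have hT : IsGraphOf T g := fun i w => Iff.rfl
  have hle : T ≤ Γ := by
    rintro i w ⟨v, p, hv, hp⟩
    have := p.2.2
    rcases hp with hp | hp
    · rw [hp] at this; exact this
    · rw [hp] at this; exact this.symm
  have hconn : T.Connected := by
    have hr : ∀ v, T.Reachable 0 v := by
      intro v
      by_contra hv
      apply h
      apply exists_vecMul_eq_zero_iff.1
      refine ⟨fun w => if T.Reachable 0 w then 0 else 1, ?_, ?_⟩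
      · intro hz
        have := congrFun hz v
        simp [hv] at this
      · funext j
        rw [vecMul_Nmat]
        rcases hgj : g j with p | p
        · have hadj : T.Adj p.1.1 p.1.2 := ⟨j, p, hgj, Or.inl rfl⟩
          have : T.Reachable 0 p.1.2 ↔ T.Reachable 0 p.1.1 :=
            ⟨fun hh => hh.trans hadj.symm.reachable, fun hh => hh.trans hadj.reachable⟩
          simp [this]
        · simp
    exact ⟨fun a b => (hr a).symm.trans (hr b)⟩
  refine ⟨T, hle, ?_, fun i => deg_count hinj hT i⟩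
  rw [SimpleGraph.isTree_iff_connected_and_card]
  refine ⟨hconn, ?_⟩
  obtain ⟨v0, hv0⟩ := hu
  have hgv : ∀ v : {v : Fin (N+1) // v ≠ v0}, ∃ p : Edge Γ, g v = Sum.inl p := by
    intro v
    rcases hgv : g v with p | p
    · exact ⟨p, rfl⟩
    · exact absurd (hinj (hgv.trans hv0.symm)) v.2
  choose φ hφ using hgv
  have hcard : Nat.card T.edgeSet = Nat.card {v : Fin (N+1) // v ≠ v0} := by
    symm
    apply Nat.card_congr
    refine Equiv.ofBijective (fun v => ⟨s((φ v).1.1, (φ v).1.2), ?_⟩) ⟨?_, ?_⟩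
    · exact ⟨v, φ v, hφ v, Or.inl rfl⟩
    · intro a b hab'
      have hab := congrArg Subtype.val hab'
      simp only [Sym2.eq_iff] at hab
      have ha := (φ a).2.1
      have hb := (φ b).2.1
      have : φ a = φ b := by
        apply Subtype.ext
        rcases hab with ⟨h1, h2⟩ | ⟨h1, h2⟩
        · exact Prod.ext h1 h2
        · rw [h1, h2] at ha; exact absurd ha (not_lt_of_gt hb)
      apply Subtype.ext
      apply hinj
      rw [hφ a, hφ b, this]
    · rintro ⟨e, he⟩
      induction e using Sym2.ind with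
      | _ i w =>
        obtain ⟨v, p, hv, hp⟩ := he
        have hvne : v ≠ v0 := by
          rintro rfl; rw [hv0] at hv; exact absurd hv (by simp)
        refine ⟨⟨v, hvne⟩, ?_⟩
        have hpe : φ ⟨v, hvne⟩ = p := by
          have := hφ ⟨v, hvne⟩
          simp only at this
          rw [hv] at this
          exact (Sum.inl_injective this).symm
        apply Subtype.ext
        show s((φ ⟨v, hvne⟩).1.1, (φ ⟨v, hvne⟩).1.2) = s(i, w)
        rw [hpe]
        rcases hp with hp | hp
        · rw [hp]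
        · rw [hp]; exact Sym2.eq_swap
  rw [hcard]
  simp [Nat.card_eq_fintype_card, Fintype.card_subtype_compl]

theorem exists_cg_of_tree {Γ : SimpleGraph (Fin (N+1))} {T : SimpleGraph (Fin (N+1))}
    (hle : T ≤ Γ) (hT : T.IsTree) : ∃ g : Fin (N+1) → Edge Γ ⊕ Unit, cg Γ g ≠ 0 ∧
      ∀ i, (∑ v, ew Γ (g v)) i = (T.neighborSet i).ncard := by
  classical
  obtain ⟨hc, hcard⟩ := SimpleGraph.isTree_iff_connected_and_card.1 hT
  have hET : Nat.card (Edge T) = Nat.card T.edgeSet := by
    apply Nat.card_congr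
    refine Equiv.ofBijective (fun p => ⟨s(p.1.1, p.1.2), p.2.2⟩) ⟨?_, ?_⟩
    · intro a b hab'
      have hab := congrArg Subtype.val hab'
      simp only [Sym2.eq_iff] at hab
      have ha := a.2.1
      have hb := b.2.1
      apply Subtype.ext
      rcases hab with ⟨h1, h2⟩ | ⟨h1, h2⟩
      · exact Prod.ext h1 h2
      · rw [h1, h2] at ha; exact absurd ha (not_lt_of_gt hb)
    · rintro ⟨e, he⟩
      induction e using Sym2.ind with
      | _ i w =>
        have he' : T.Adj i w := he
        rcases lt_or_gt_of_ne he'.ne with hlt | hlt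
        · exact ⟨⟨(i, w), hlt, he'⟩, rfl⟩
        · exact ⟨⟨(w, i), hlt, he'.symm⟩, by simp [Sym2.eq_swap]⟩
  have hcard2 : Fintype.card (Fin (N+1)) = Fintype.card (Edge T ⊕ Unit) := by
    rw [← Nat.card_eq_fintype_card, ← Nat.card_eq_fintype_card, Nat.card_sum, hET, ← hcard]
    simp
  let e : Fin (N+1) ≃ Edge T ⊕ Unit := Fintype.equivOfCardEq hcard2
  let ι : Edge T → Edge Γ := fun p => ⟨p.1, p.2.1, hle p.2.2⟩
  have hι : Function.Injective ι := by
    intro a b hab
    apply Subtype.ext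
    exact congrArg (fun x : Edge Γ => x.1) hab
  let g : Fin (N+1) → Edge Γ ⊕ Unit := fun v => Sum.map ι id (e v)
  have hinj : Function.Injective g :=
    (Sum.map_injective.2 ⟨hι, Function.injective_id⟩).comp e.injective
  have hG : IsGraphOf T g := by
    intro i w
    constructor
    · intro h
      rcases lt_or_gt_of_ne h.ne with hlt | hlt
      · refine ⟨e.symm (Sum.inl ⟨(i, w), hlt, h⟩), ι ⟨(i, w), hlt, h⟩, ?_, Or.inl rfl⟩
        simp [g]
      · refine ⟨e.symm (Sum.inl ⟨(w, i), hlt, h.symm⟩), ι ⟨(w, i), hlt, h.symm⟩, ?_, Or.inr rfl⟩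
        simp [g]
    · rintro ⟨v, p, hv, hp⟩
      rcases hev : e v with q | q
      · simp only [g, hev, Sum.map_inl, Sum.inl.injEq] at hv
        have hq := q.2.2
        have : q.1 = p.1 := by rw [← hv]
        rw [this] at hq
        rcases hp with hp | hp
        · rw [hp] at hq; exact hq
        · rw [hp] at hq; exact hq.symm
      · simp [g, hev] at hv
  refine ⟨g, cg_ne_zero_of hG hc ⟨e.symm (Sum.inr ()), by simp [g]⟩, fun i => deg_count hinj hG i⟩

end trees

section final
open MvPolynomial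
variable {N : ℕ}

/-- exponent of a triple -/
noncomputable def et (t : Fin n × Fin n × Fin n) : Fin n →₀ ℕ :=
  Finsupp.single t.1 1 + Finsupp.single t.2.1 1 + Finsupp.single t.2.2 1

/-- all ones exponent -/
noncomputable def onev (n : ℕ) : Fin n →₀ ℕ := ∑ v, Finsupp.single v 1

theorem supp_transfer {σ A B : Type*} [Fintype A] [Fintype B] (e : A → (σ →₀ ℕ)) (e' : B → (σ →₀ ℕ))
    (u : A → ℤ) (v : B → ℤ) (hu : ∀ a, 0 ≤ u a)
    (h : ∑ a, monomial (e a) (u a) = ∑ b, monomial (e' b) (v b)) (a : A) (ha : u a ≠ 0) :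
    ∃ b, v b ≠ 0 ∧ e' b = e a := by
  classical
  by_contra hcon
  push Not at hcon
  have h1 := congrArg (coeff (e a)) h
  rw [coeff_sum, coeff_sum] at h1
  have h2 : ∑ b, coeff (e a) (monomial (e' b) (v b)) = 0 := by
    apply Finset.sum_eq_zero
    intro b _
    rw [coeff_monomial]
    by_cases hb : v b = 0
    · simp [hb]
    · simp [hcon b hb]
  rw [h2] at h1
  have h3 : ∀ a' ∈ (univ : Finset A), 0 ≤ coeff (e a) (monomial (e a') (u a')) := by
    intro a' _
    rw [coeff_monomial]
    split_ifs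
    · exact hu a'
    · exact le_rfl
  have h4 := (Finset.sum_eq_zero_iff_of_nonneg h3).1 h1 a (Finset.mem_univ a)
  rw [coeff_monomial, if_pos rfl] at h4
  exact ha h4

theorem prod_monomial {R σ A : Type*} [CommSemiring R] (s : Finset A) (e : A → (σ →₀ ℕ)) :
    ∏ a ∈ s, (monomial (e a) (1 : R)) = monomial (∑ a ∈ s, e a) 1 := by
  classical
  induction s using Finset.induction_on with
  | empty => simp
  | insert a s ha ih => rw [Finset.prod_insert ha, Finset.sum_insert ha, ih, monomial_mul, one_mul]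

theorem sum_X_ne_zero {R : Type*} [CommRing R] [IsDomain R] [CharZero R] :
    (∑ c : Fin (N+1), (X c : MvPolynomial (Fin (N+1)) R)) ≠ 0 := by
  intro h
  have := congrArg (MvPolynomial.eval (fun _ => (1 : R))) h
  simp at this
  exact (Nat.cast_add_one_ne_zero N) this

/-- combinatorial form of the main identity -/
theorem poly_identity (Γ : SimpleGraph (Fin (N+1))) [DecidableRel Γ.Adj]
    (hE : N + 1 ≤ Fintype.card (NonEdge Γ) + 2) :
    ∑ f : NonEdge Γ → Fin (N+1) × Fin (N+1) × Fin (N+1),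
      (monomial ((∑ p, et (f p)) + onev (N+1)) (((N+1).factorial : ℤ) * (db Γ f) ^ 2) :
        MvPolynomial (Fin (N+1)) ℤ) =
    ∑ gh : (Fin (N+1) → Edge Γ ⊕ Unit) × (Fin (Fintype.card (NonEdge Γ) + 2 - (N+1)) → Fin (N+1)),
      monomial ((∑ p : NonEdge Γ, ep p.1) + (∑ i, Finsupp.single (gh.2 i) 1) + ∑ v, ew Γ (gh.1 v))
        (((Fintype.card (NonEdge Γ)).factorial : ℤ) * 6 ^ (Fintype.card (NonEdge Γ)) *
          (cg Γ gh.1) ^ 2) := by
  have h := main_identity (R := MvPolynomial (Fin (N+1)) ℤ) X sum_X_ne_zero Γ hE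
  have hww : ∀ t : Fin (N+1) × Fin (N+1) × Fin (N+1),
      ww (X : Fin (N+1) → MvPolynomial (Fin (N+1)) ℤ) t = monomial (et t) 1 := by
    intro t; simp [ww, et, X, monomial_mul]
  have hep : ∀ p : Fin (N+1) × Fin (N+1),
      (X p.1 : MvPolynomial (Fin (N+1)) ℤ) * X p.2 = monomial (ep p) 1 := by
    intro t; simp [ep, X, monomial_mul]
  have hwE : ∀ e : Edge Γ ⊕ Unit,
      wE (X : Fin (N+1) → MvPolynomial (Fin (N+1)) ℤ) Γ e = monomial (ew Γ e) 1 := by
    rintro (e | e)
    · simp only [wE, ew, Sum.elim_inl]; exact hep e.1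
    · simp [wE, ew]
  have hone : ∏ v : Fin (N+1), (X v : MvPolynomial (Fin (N+1)) ℤ) = monomial (onev (N+1)) 1 := by
    unfold onev; rw [← prod_monomial]; rfl
  have hC : ∀ z : ℤ, (C z : MvPolynomial (Fin (N+1)) ℤ) = (z : MvPolynomial (Fin (N+1)) ℤ) :=
    fun z => eq_intCast C z
  simp_rw [hww, hwE, hep, prod_monomial] at h
  rw [hone, Fintype.sum_pow, Finset.mul_sum] at h
  have hl : ∀ f : NonEdge Γ → Fin (N+1) × Fin (N+1) × Fin (N+1),
      (((N+1).factorial : MvPolynomial (Fin (N+1)) ℤ) * monomial (onev (N+1)) 1) *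
        (((db Γ f : ℤ) : MvPolynomial (Fin (N+1)) ℤ) ^ 2 * monomial (∑ p, et (f p)) 1) =
      monomial ((∑ p, et (f p)) + onev (N+1)) (((N+1).factorial : ℤ) * (db Γ f) ^ 2) := by
    intro f
    have e1 : (((N+1).factorial : ℤ) * (db Γ f) ^ 2) = (((N+1).factorial : ℤ) * (db Γ f) ^ 2) * (1 * 1) := by ring
    rw [e1, ← C_mul_monomial, ← monomial_mul, hC]
    push_cast
    ring
  rw [Finset.sum_congr rfl (fun f _ => hl f)] at h
  rw [h, Fintype.sum_prod_type]
  simp_rw [Finset.mul_sum, Finset.sum_mul]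
  refine Finset.sum_congr rfl fun g _ => Finset.sum_congr rfl fun k _ => ?_
  have hk : ∏ i, (X (k i) : MvPolynomial (Fin (N+1)) ℤ) = monomial (∑ i, Finsupp.single (k i) 1) 1 := by
    rw [← prod_monomial]; rfl
  have e1 : (((Fintype.card (NonEdge Γ)).factorial : ℤ) * 6 ^ (Fintype.card (NonEdge Γ)) *
          (cg Γ g) ^ 2) = (((Fintype.card (NonEdge Γ)).factorial : ℤ) * 6 ^ (Fintype.card (NonEdge Γ)) *
          (cg Γ g) ^ 2) * ((1 * 1) * 1) := by ring
  rw [hk, e1, ← C_mul_monomial, ← monomial_mul, ← monomial_mul, hC]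
  push_cast
  ring

theorem sort_triple (t : Fin n × Fin n × Fin n) :
    (∀ p : Fin n × Fin n, (bt p t : ℤ) = 0) ∨
      ∃ t' : {t : Fin n × Fin n × Fin n // t.1 < t.2.1 ∧ t.2.1 < t.2.2}, ∃ ε : ℤ, ε ≠ 0 ∧
        (∀ p : Fin n × Fin n, (bt p t : ℤ) = ε * bt p t'.1) ∧ et t = et t'.1 := by
  obtain ⟨a, b, c⟩ := t
  rcases lt_trichotomy a b with hab | hab | hab
  · rcases lt_trichotomy b c with hbc | hbc | hbc
    · exact Or.inr ⟨⟨(a, b, c), hab, hbc⟩, 1, one_ne_zero, fun p => by simp, rfl⟩
    · left; intro p; subst hbc; simp [bt, s2]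
    · rcases lt_trichotomy a c with hac | hac | hac
      · refine Or.inr ⟨⟨(a, c, b), hac, hbc⟩, -1, by norm_num, fun p => ?_, ?_⟩
        · simp only [bt, s2]; ring
        · simp only [et]; abel
      · left; intro p; subst hac; simp [bt, s2]
      · refine Or.inr ⟨⟨(c, a, b), hac, hab⟩, 1, by norm_num, fun p => ?_, ?_⟩
        · simp only [bt, s2]; ring
        · simp only [et]; abel
  · left; intro p; subst hab; simp [bt, s2]
  · rcases lt_trichotomy a c with hac | hac | hac
    · refine Or.inr ⟨⟨(b, a, c), hab, hac⟩, -1, by norm_num, fun p => ?_, ?_⟩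
      · simp only [bt, s2]; ring
      · simp only [et]; abel
    · left; intro p; subst hac; simp [bt, s2]
    · rcases lt_trichotomy b c with hbc | hbc | hbc
      · refine Or.inr ⟨⟨(b, c, a), hbc, hac⟩, 1, by norm_num, fun p => ?_, ?_⟩
        · simp only [bt, s2]; ring
        · simp only [et]; abel
      · left; intro p; subst hbc; simp [bt, s2]
      · refine Or.inr ⟨⟨(c, b, a), hbc, hab⟩, -1, by norm_num, fun p => ?_, ?_⟩
        · simp only [bt, s2]; ring
        · simp only [et]; abel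

end final

section ideal
open MvPolynomial
variable {N : ℕ} (k : Type*) [Field k]

theorem koszul_entry (Γ : SimpleGraph (Fin n)) (p : NonEdge Γ) (t : Triple n) :
    monomial (ep p.1) (1 : k) * koszulMatrix k Γ p t = C (bt p.1 t.1 : k) * monomial (et t.1) 1 := by
  obtain ⟨⟨i, j⟩, hij, hadj⟩ := p
  obtain ⟨⟨a, b, c⟩, hab, hbc⟩ := t
  simp only at hij hab hbc
  have h1 : ∀ u v : Fin n, u < v → (s2 (i, j) u v : k) = if (i, j) = (u, v) then 1 else 0 := by
    intro u v huv
    have : ¬ ((i, j) = (v, u)) := by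
      intro hc
      rw [Prod.mk.injEq] at hc
      rw [hc.1, hc.2] at hij
      exact absurd hij (not_lt_of_gt huv)
    simp [s2, this]
  have hac : a < c := hab.trans hbc
  simp only [koszulMatrix, bt, h1 a b hab, h1 a c hac, h1 b c hbc]
  have hX : ∀ v : Fin n, (X v : MvPolynomial (Fin n) k) = monomial (Finsupp.single v 1) 1 := fun _ => rfl
  by_cases e1 : (i, j) = (a, b)
  · have n2 : ¬ ((i, j) = (a, c)) := by
      rw [e1]; simp [hbc.ne]
    have n3 : ¬ ((i, j) = (b, c)) := by
      rw [e1]; simp [hab.ne]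
    rw [Prod.mk.injEq] at e1
    obtain ⟨rfl, rfl⟩ := e1
    simp only [n2, n3, if_true, if_false, sub_zero, add_zero, map_one, one_mul, hX, monomial_mul, ep, et]
  · by_cases e2 : (i, j) = (a, c)
    · have n3 : ¬ ((i, j) = (b, c)) := by
        rw [e2]; simp [hab.ne]
      rw [if_neg e1, if_pos e2, if_neg e1, if_pos e2, if_neg n3]
      rw [Prod.mk.injEq] at e2
      obtain ⟨rfl, rfl⟩ := e2
      simp only [zero_sub, add_zero, map_neg, map_one, neg_mul, one_mul, mul_neg, hX, monomial_mul, ep, et,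
        mul_one]
      rw [add_right_comm]
    · by_cases e3 : (i, j) = (b, c)
      · rw [if_neg e1, if_neg e2, if_pos e3, if_neg e1, if_neg e2, if_pos e3]
        rw [Prod.mk.injEq] at e3
        obtain ⟨rfl, rfl⟩ := e3
        simp only [sub_zero, zero_add, map_one, one_mul, hX, monomial_mul, ep, et,
          mul_one]
        rw [add_comm, ← add_assoc]
      · simp [e1, e2, e3]

theorem koszul_det (Γ : SimpleGraph (Fin n)) [DecidableRel Γ.Adj] (f : NonEdge Γ → Triple n) :
    monomial (∑ p : NonEdge Γ, ep p.1) (1 : k) * ((koszulMatrix k Γ).submatrix id f).det =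
      C ((db Γ (fun p => (f p).1) : ℤ) : k) * monomial (∑ p, et (f p).1) 1 := by
  have h1 : diagonal (fun p : NonEdge Γ => monomial (ep p.1) (1 : k)) * (koszulMatrix k Γ).submatrix id f =
      ((Beta k Γ).submatrix id (fun p => (f p).1)).map (C : k →+* MvPolynomial (Fin n) k) *
        diagonal (fun p : NonEdge Γ => monomial (et (f p).1) (1 : k)) := by
    ext p q
    rw [Matrix.diagonal_mul, Matrix.mul_diagonal, Matrix.submatrix_apply, Matrix.map_apply,
      Matrix.submatrix_apply]
    rw [id_eq, koszul_entry]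
    rfl
  have h2 := congrArg Matrix.det h1
  rw [det_mul, det_mul, det_diagonal, det_diagonal, prod_monomial, prod_monomial] at h2
  rw [h2, ← det_Beta (R := k)]
  rw [RingHom.map_det]
  rfl

theorem tree_exponent {T : SimpleGraph (Fin (N+1))} (hN : 1 ≤ N) (hT : T.IsTree)
    (s : Fin (N+1) →₀ ℕ) (hs : ∀ i, s i = (T.neighborSet i).ncard) :
    monomial s (1 : k) = monomial (onev (N+1)) 1 * treeMonomial k T := by
  have hdeg : ∀ i, 1 ≤ (T.neighborSet i).ncard := by
    intro i
    have : Nontrivial (Fin (N+1)) := Fin.nontrivial_iff_two_le.2 (by omega)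
    obtain ⟨w, hw⟩ := hT.connected.preconnected.exists_adj_of_nontrivial i
    exact Nat.one_le_iff_ne_zero.2 (Set.ncard_ne_zero_of_mem (a := w) hw)
  have h1 : treeMonomial k T = monomial (∑ i, Finsupp.single i ((T.neighborSet i).ncard - 1)) 1 := by
    unfold treeMonomial
    rw [← prod_monomial]
    refine Finset.prod_congr rfl fun i _ => ?_
    rw [X_pow_eq_monomial]
  rw [h1, monomial_mul, one_mul]
  have hse : s = onev (N+1) + ∑ i, Finsupp.single i ((T.neighborSet i).ncard - 1) := by
    ext i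
    rw [hs i]
    simp only [onev, Finsupp.add_apply, Finsupp.finsetSum_apply, Finsupp.single_apply,
      Finset.sum_ite_eq', Finset.mem_univ, if_true]
    have := hdeg i
    omega
  rw [← hse]

theorem mem_of_mul {k : Type*} [Field k] {σ : Type*} (s : σ →₀ ℕ) (p q : MvPolynomial σ k)
    (h : monomial s (1 : k) * p = monomial s 1 * q) : p = q := by
  apply mul_left_cancel₀ _ h
  simp [monomial_eq_zero]

theorem maxIdeal_pow (r : ℕ) : maxIdeal k n ^ r =
    Ideal.span (Set.range fun h : Fin r → Fin n => ∏ i, (X (h i) : MvPolynomial (Fin n) k)) := by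
  induction r with
  | zero =>
    rw [pow_zero, Ideal.one_eq_top]
    symm
    rw [Ideal.eq_top_iff_one]
    apply Ideal.subset_span
    exact ⟨Fin.elim0, by simp⟩
  | succ r ih =>
    rw [pow_succ', ih, maxIdeal, Ideal.span_mul_span']
    congr 1
    ext q
    rw [Set.mem_mul]
    constructor
    · rintro ⟨_, ⟨a, rfl⟩, _, ⟨h, rfl⟩, rfl⟩
      refine ⟨Fin.cons a h, ?_⟩
      simp [Fin.prod_univ_succ]
    · rintro ⟨h, rfl⟩
      refine ⟨X (h 0), ⟨h 0, rfl⟩, ∏ i : Fin r, X (h i.succ), ⟨fun i => h i.succ, rfl⟩, ?_⟩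
      simp [Fin.prod_univ_succ]

theorem main_theorem [CharZero k] (hN : 1 ≤ N) (Γ : SimpleGraph (Fin (N+1))) [DecidableRel Γ.Adj]
    (hE : N + 1 ≤ Fintype.card (NonEdge Γ) + 2) :
    fittIdeal k Γ = treeIdeal k Γ * maxIdeal k (N+1) ^ (Fintype.card (NonEdge Γ) + 2 - (N+1)) := by
  classical
  have hid := poly_identity Γ hE
  have hpos1 : ∀ f : NonEdge Γ → Fin (N+1) × Fin (N+1) × Fin (N+1),
      0 ≤ ((N+1).factorial : ℤ) * (db Γ f) ^ 2 := fun f => by positivity
  have hpos2 : ∀ gh : (Fin (N+1) → Edge Γ ⊕ Unit) ×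
      (Fin (Fintype.card (NonEdge Γ) + 2 - (N+1)) → Fin (N+1)),
      0 ≤ (((Fintype.card (NonEdge Γ)).factorial : ℤ) * 6 ^ (Fintype.card (NonEdge Γ)) *
          (cg Γ gh.1) ^ 2) := fun gh => by positivity
  have hXprod : ∀ h : Fin (Fintype.card (NonEdge Γ) + 2 - (N+1)) → Fin (N+1),
      monomial (∑ i, Finsupp.single (h i) 1) (1 : k) = ∏ i, X (h i) := by
    intro h; rw [← prod_monomial]; rfl
  apply le_antisymm
  · rw [fittIdeal, Ideal.span_le]
    rintro _ ⟨f, rfl⟩
    simp only [SetLike.mem_coe]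
    have hdet := koszul_det k Γ f
    by_cases hd : db Γ (fun p => (f p).1) = 0
    · rw [hd] at hdet
      have : ((koszulMatrix k Γ).submatrix id f).det = 0 := by
        apply mem_of_mul (∑ p : NonEdge Γ, ep p.1)
        rw [hdet]; simp
      rw [this]; exact Ideal.zero_mem _
    · obtain ⟨⟨g, h⟩, hgh, heq⟩ := supp_transfer _ _ _ _ hpos1 hid (fun p => (f p).1)
        (by positivity)
      simp only at hgh heq
      have hcg : cg Γ g ≠ 0 := by
        intro h0; apply hgh; rw [h0]; ring
      obtain ⟨T, hTle, hT, hdeg⟩ := exists_tree_of_cg hcg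
      have hte := tree_exponent k hN hT _ hdeg
      have key : ((koszulMatrix k Γ).submatrix id f).det =
          C ((db Γ (fun p => (f p).1) : ℤ) : k) * (treeMonomial k T * ∏ i, X (h i)) := by
        apply mem_of_mul (∑ p : NonEdge Γ, ep p.1)
        apply mem_of_mul (onev (N+1))
        rw [hdet, ← hXprod]
        have h3 : monomial (onev (N+1)) (1:k) * monomial (∑ p, et (f p).1) 1 =
            monomial (∑ p : NonEdge Γ, ep p.1) 1 * monomial (∑ i, Finsupp.single (h i) 1) 1 *
              (monomial (onev (N+1)) 1 * treeMonomial k T) := by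
          rw [← hte, monomial_mul, monomial_mul, monomial_mul, heq]
          simp [add_comm]
        calc _ = C ((db Γ (fun p => (f p).1) : ℤ) : k) *
              (monomial (onev (N+1)) (1:k) * monomial (∑ p, et (f p).1) 1) := by ring
          _ = _ := by rw [h3]; ring
      rw [key]
      apply Ideal.mul_mem_left
      apply Ideal.mul_mem_mul
      · exact Ideal.subset_span ⟨T, hTle, hT, rfl⟩
      · rw [maxIdeal_pow]
        exact Ideal.subset_span ⟨h, rfl⟩
  · rw [maxIdeal_pow, treeIdeal, Ideal.span_mul_span', Ideal.span_le]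
    rintro _ ⟨_, ⟨T, hTle, hT, rfl⟩, _, ⟨h, rfl⟩, rfl⟩
    simp only [SetLike.mem_coe]
    obtain ⟨g, hcg, hdeg⟩ := exists_cg_of_tree hTle hT
    have hte := tree_exponent k hN hT _ hdeg
    obtain ⟨f, hf, heq⟩ := supp_transfer _ _ _ _ hpos2 hid.symm (g, h) (by positivity)
    simp only at heq
    have hdb : db Γ f ≠ 0 := by
      intro h0; apply hf; rw [h0]; ring
    have hsort : ∀ p : NonEdge Γ, ∃ t' : Triple (N+1), ∃ ε : ℤ, ε ≠ 0 ∧
        (∀ q : Fin (N+1) × Fin (N+1), (bt q (f p) : ℤ) = ε * bt q t'.1) ∧ et (f p) = et t'.1 := by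
      intro p
      rcases sort_triple (f p) with hz | hs
      · exfalso
        apply hdb
        unfold db
        apply det_eq_zero_of_column_eq_zero p
        intro i
        exact hz i.1
      · exact hs
    choose f' ε hε hbt het using hsort
    have hdb' : db Γ f = (∏ p, ε p) * db Γ (fun p => (f' p).1) := by
      unfold db
      rw [← det_mul_row]
      congr 1
      ext i j
      exact hbt j i.1
    have hdb'' : db Γ (fun p => (f' p).1) ≠ 0 := by
      intro h0; apply hdb; rw [hdb', h0, mul_zero]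
    have hinj : Function.Injective f' := by
      intro a b hab
      by_contra hne
      apply hdb''
      unfold db
      apply det_zero_of_column_eq hne
      intro i
      simp [hab]
    have hdet := koszul_det k Γ f'
    have hdbk : ((db Γ (fun p => (f' p).1) : ℤ) : k) ≠ 0 := by exact_mod_cast hdb''
    have key : ((koszulMatrix k Γ).submatrix id f').det =
        C ((db Γ (fun p => (f' p).1) : ℤ) : k) * (treeMonomial k T * ∏ i, X (h i)) := by
      apply mem_of_mul (∑ p : NonEdge Γ, ep p.1)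
      apply mem_of_mul (onev (N+1))
      rw [hdet, ← hXprod]
      have h3 : monomial (onev (N+1)) (1:k) * monomial (∑ p, et (f' p).1) 1 =
          monomial (∑ p : NonEdge Γ, ep p.1) 1 * monomial (∑ i, Finsupp.single (h i) 1) 1 *
            (monomial (onev (N+1)) 1 * treeMonomial k T) := by
        rw [← hte, monomial_mul, monomial_mul, monomial_mul, ← heq]
        rw [Finset.sum_congr rfl (fun p _ => het p)]
        simp [add_comm]
      calc _ = C ((db Γ (fun p => (f' p).1) : ℤ) : k) *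
            (monomial (onev (N+1)) (1:k) * monomial (∑ p, et (f' p).1) 1) := by ring
        _ = _ := by rw [h3]; ring
    have hfin : treeMonomial k T * ∏ i, X (h i) =
        C ((db Γ (fun p => (f' p).1) : ℤ) : k)⁻¹ * ((koszulMatrix k Γ).submatrix id f').det := by
      rw [key, ← mul_assoc, ← map_mul, inv_mul_cancel₀ hdbk, map_one, one_mul]
    show treeMonomial k T * ∏ i, X (h i) ∈ _
    rw [hfin]
    apply Ideal.mul_mem_left
    exact Ideal.subset_span ⟨⟨f', hinj⟩, rfl⟩

end ideal
end Pool.Agent.Work.MP_15f3fd_al
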